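import Pool.Agent.Run7.h604.ZH.Law
import Pool.Agent.Run7.h604.ZH.Psm

/-! For real `x > 1` the chromatic polynomial is positive on the half line from `x` for all
connected planar graphs, or only for an exponentially small share of them. -/

set_option autoImplicit false

namespace Pool.Agent.Results.MP_0d034c_co.AllOrFewLaw

open Pool.Agent.Run7.h604.ZH

theorem result (x : ℝ) (hx : 1 < x) :
    (∀ (V : Type) (G : SimpleGraph V), PlanarConn V G → ∀ q : ℝ, x ≤ q → PosAt q G) ∨
    (∃ K κ : ℝ, 0 < κ ∧ ∀ n : ℕ, 1 ≤ n →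
      share PlanarConn n (fun G => ∀ q : ℝ, x ≤ q → PosAt q G) ≤ K * Real.exp (-(κ * n))) :=
  all_or_few planar_class x hx

end Pool.Agent.Results.MP_0d034c_co.AllOrFewLaw
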