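import Pool.Agent.Run7.h764.BLA.Fin

/-!
# The Birkhoff-Lewis inequality on average

A plane graph all of whose vertices lie on a line (for example, after a deformation, a plane graph
with a Hamiltonian cycle) is the union of two noncrossing graphs `S` (drawn above the line) and `T`
(drawn below).  A plane triangulation without separating triangle has a Hamiltonian cycle by
Whitney's theorem, so it is a union of two triangulated polygons, and the Birkhoff-Lewis conjecture
says that `P(S ∪ T,q) > 0` for all pairs of triangulated polygons and all real `q ≥ 4`.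

Birkhoff and Lewis proved `q(q-1)(q-2)(q-3)^(N-3) ≤ P(G,q)` for all plane triangulations `G` with `N`
vertices and all real `q ≥ 5`, and conjectured it for all real `q ≥ 4`.  Here this lower bound is
shown to hold on average over the pairs of elements of any set of noncrossing graphs which contain
the path.
-/

set_option autoImplicit false

namespace Pool.Agent.Results.MP_0d034c_co.HamiltonianAverage

open Polynomial Pool.Agent.H207R2.BL

/-- no two edges of the graph `T` on `0, …, n-1` cross (all edges being drawn on one side of the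
line) -/
def Noncrossing {n : ℕ} (T : SimpleGraph (Fin n)) : Prop :=
  ∀ a b c d : Fin n, a < b → b < c → c < d → T.Adj a c → ¬ T.Adj b d

/-- Let `q ≥ 4` be real.

(1) Let `N i` (`i ∈ J`) and `K` be finite graphs drawn in a closed half plane with the same `n`
boundary vertices on its border, let `p i j`, `r i` and `s` be the chromatic polynomials of the plane
graphs which consist of `N i` and the mirror image of `N j`, of `N i` and the mirror image of `K`,
and of `K` and its mirror image.  Then `(∑ a_i r_i(q))^2 ≤ s(q) ∑ a_i a_j p_ij(q)` for all real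
numbers `a_i`.

(2) Let `F` be a set of noncrossing graphs on `0, …, n+1` which contain the path `0, 1, …, n+1` (for
example the set of all triangulated polygons).  For `S, T ∈ F` the graph `S ∪ T` is drawn in the
plane.  The average of `P(S ∪ T,q)` over all pairs `S, T` of elements of `F` is at least
`q(q-1)((q-2)^2/(q-1))^n`, hence at least `q(q-1)(q-2)(q-3)^(n-1)` if `q ≤ 5` and `n ≥ 4`; a
proportion of at least `((q-2)/(q-1))^n` of the pairs satisfies `P(S ∪ T,q) > 0`; and `F` has at most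
`((q-1)/(q-2))^n` elements if `P(S ∪ T,q) ≤ 0` for all `S ≠ T` in `F`. -/
theorem result (q : ℝ) (hq : 4 ≤ q) :
    (∀ (n : ℕ) (J : Type) [Fintype J] (V : J → Type) [∀ i, Finite (V i)] (W : Type) [Finite W]
      (N : ∀ i, SimpleGraph (V i ⊕ Fin n)) (K : SimpleGraph (W ⊕ Fin n)),
      (∀ i, DrawnInHalfPlane (N i)) → DrawnInHalfPlane K →
      ∀ (p : J → J → ℝ[X]) (r : J → ℝ[X]) (s : ℝ[X]),
      (∀ i j, IsChrom (glue (N i) (N j)) (p i j)) → (∀ i, IsChrom (glue (N i) K) (r i)) →
      IsChrom (glue K K) s → ∀ a : J → ℝ,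
      (∑ i, a i * (r i).eval q) ^ 2 ≤ s.eval q * ∑ i, ∑ j, a i * a j * (p i j).eval q) ∧
    (∀ (n : ℕ) (P : SimpleGraph (Fin (n + 2)) → ℝ[X]), (∀ G, IsChrom G (P G)) →
      ∀ F : Finset (SimpleGraph (Fin (n + 2))),
        (∀ T ∈ F, Noncrossing T ∧ ∀ i j : Fin (n + 2), i.val + 1 = j.val → T.Adj i j) →
        (∀ S ∈ F, ∀ T ∈ F, ∃ f γ, IsDrawing (S ⊔ T) f γ) ∧
        (F.card : ℝ) ^ 2 * (q * (q - 1) * ((q - 2) ^ 2 / (q - 1)) ^ n) ≤
          ∑ S ∈ F, ∑ T ∈ F, (P (S ⊔ T)).eval q ∧
        (q ≤ 5 → 4 ≤ n → (F.card : ℝ) ^ 2 * (q * (q - 1) * ((q - 2) * (q - 3) ^ (n - 1))) ≤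
          ∑ S ∈ F, ∑ T ∈ F, (P (S ⊔ T)).eval q) ∧
        (F.card : ℝ) ^ 2 * ((q - 2) / (q - 1)) ^ n ≤
          Nat.card {x : SimpleGraph (Fin (n + 2)) × SimpleGraph (Fin (n + 2)) //
            x.1 ∈ F ∧ x.2 ∈ F ∧ 0 < (P (x.1 ⊔ x.2)).eval q} ∧
        ((∀ S ∈ F, ∀ T ∈ F, S ≠ T → (P (S ⊔ T)).eval q ≤ 0) →
          (F.card : ℝ) ≤ ((q - 1) / (q - 2)) ^ n)) := by
  have cl : ∀ {V : Type} {n : ℕ} (N : SimpleGraph (V ⊕ Fin n)), DrawnInHalfPlane N →
      Crossless N := by
    rintro V n N ⟨f, γ, h1, h2, h3, h4, h5⟩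
    exact crossless_of_drawing N f γ h1 h2 h3 h4 h5
  refine ⟨?_, ?_⟩
  · intro n J _ V _ W _ N K hN hK p r s hp hr hs a
    exact Pool.Agent.Run7.h764.BLA.gen V W N (fun i => cl _ (hN i)) K (cl _ hK) p hp r hr s hs q
      hq a
  · intro n P hP
    have e : ∀ G, (P G).eval q = Pool.Agent.Run7.h764.BLA.Pv q G := fun G => by
      rw [eq_chr (hP G)]
      rfl
    simp only [e]
    have hq0 : 0 < q := by linarith
    have hq1 : 0 < q - 1 := by linarith
    have hq2 : 0 < q - 2 := by linarith
    intro F hF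
    have hpath : ∀ T ∈ F, SimpleGraph.pathGraph (n + 2) ≤ T := fun T hT =>
      Pool.Agent.Run7.h764.BLA.path_le T (hF T hT).2
    have h1 := Pool.Agent.Run7.h764.BLA.avg F (fun T hT => (hF T hT).1) _
      (Pool.Agent.Run7.h764.BLA.path_nc n) hpath q hq
    have h2 := Pool.Agent.Run7.h764.BLA.many F (fun T hT => (hF T hT).1) _
      (Pool.Agent.Run7.h764.BLA.path_nc n) hpath q hq _ rfl
    rw [Pool.Agent.Run7.h764.BLA.path_val] at h1 h2
    have h3 : (F.card : ℝ) ^ 2 * (q * (q - 1) * ((q - 2) ^ 2 / (q - 1)) ^ n) ≤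
        ∑ S ∈ F, ∑ T ∈ F, Pool.Agent.Run7.h764.BLA.Pv q (S ⊔ T) := by
      have hpos : 0 < q * (q - 1) ^ (n + 1) := by positivity
      refine le_of_mul_le_mul_left ?_ hpos
      refine le_trans (le_of_eq ?_) h1
      have h8 : ((q - 2) ^ 2) ^ n = ((q - 2) ^ n) ^ 2 := by
        rw [← pow_mul, ← pow_mul, mul_comm]
      have h9 : (q - 1) ^ (n + 1) = (q - 1) ^ n * (q - 1) := pow_succ _ _
      have h10 : (q - 1) ^ n ≠ 0 := by positivity
      rw [div_pow, h8, h9]
      field_simp
    have h4 : (F.card : ℝ) ^ 2 * ((q - 2) / (q - 1)) ^ n ≤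
        Nat.card {x : SimpleGraph (Fin (n + 2)) × SimpleGraph (Fin (n + 2)) //
          x.1 ∈ F ∧ x.2 ∈ F ∧ 0 < Pool.Agent.Run7.h764.BLA.Pv q (x.1 ⊔ x.2)} := by
      have hpos : 0 < q * (q - 1) ^ (n + 1) := by positivity
      refine le_of_mul_le_mul_left ?_ hpos
      refine le_trans (le_of_eq ?_) h2
      rw [div_pow]
      field_simp
      ring
    refine ⟨fun S hS T hT => ⟨_, _, Pool.Agent.Run7.h764.BLA.union_drawing S T (hF S hS).1
      (hF T hT).1⟩, h3, ?_, h4, ?_⟩
    · intro h5 hn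
      refine le_trans ?_ h3
      have h6 := Pool.Agent.Run7.h764.BLA.strong_cmp q hq h5 n hn
      have h7 : 0 ≤ q * (q - 1) := by positivity
      exact mul_le_mul_of_nonneg_left (mul_le_mul_of_nonneg_left h6 h7) (by positivity)
    · intro hF0
      rcases Nat.eq_zero_or_pos F.card with h0 | h0
      · rw [h0, Nat.cast_zero]
        positivity
      · have h5 : Nat.card {x : SimpleGraph (Fin (n + 2)) × SimpleGraph (Fin (n + 2)) //
            x.1 ∈ F ∧ x.2 ∈ F ∧ 0 < Pool.Agent.Run7.h764.BLA.Pv q (x.1 ⊔ x.2)} ≤ F.card := by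
          have e1 : F.card = Nat.card F := by simp
          rw [e1]
          refine Nat.card_le_card_of_injective (fun x => (⟨x.1.1, x.2.1⟩ : F)) ?_
          have hd : ∀ x : {x : SimpleGraph (Fin (n + 2)) × SimpleGraph (Fin (n + 2)) //
              x.1 ∈ F ∧ x.2 ∈ F ∧ 0 < Pool.Agent.Run7.h764.BLA.Pv q (x.1 ⊔ x.2)},
              x.1.1 = x.1.2 := by
            intro x
            by_contra hne
            exact absurd x.2.2.2 (not_lt.2 (hF0 _ x.2.1 _ x.2.2.1 hne))
          intro x y hxy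
          have h9 : x.1.1 = y.1.1 := congrArg Subtype.val hxy
          exact Subtype.ext (Prod.ext h9 ((hd x).symm.trans (h9.trans (hd y))))
        have h6 : (F.card : ℝ) ^ 2 * ((q - 2) / (q - 1)) ^ n ≤ F.card :=
          h4.trans (by exact_mod_cast h5)
        have h7 : (0 : ℝ) < F.card := by exact_mod_cast h0
        have h8 : (F.card : ℝ) * ((q - 2) / (q - 1)) ^ n ≤ 1 := by
          refine le_of_mul_le_mul_left ?_ h7
          linarith
        rw [div_pow] at h8 ⊢
        rw [le_div_iff₀ (by positivity)]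
        rw [← mul_div_assoc, div_le_one (by positivity)] at h8
        exact h8

end Pool.Agent.Results.MP_0d034c_co.HamiltonianAverage
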