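import Pool.Agent.Run7.h604.ZH.Wl

/-! For a fixed real `q > 1` the chromatic polynomial is nonnegative at `q` on all connected planar
graphs, or the signed sum of its values over the labelled ones is at most a fixed fraction of the
sum of the absolute values. -/

set_option autoImplicit false

namespace Pool.Agent.Results.MP_0d034c_co.SignedSumLaw

open Pool.Agent.Run7.h604.ZH

theorem result (q : ℝ) (hq : 1 < q) :
    (∀ (V : Type) (G : SimpleGraph V), PlanarConn V G → 0 ≤ val q G) ∨
    (∃ θ K κ : ℝ, θ < 1 ∧ 0 < κ ∧ ∀ n : ℕ, 1 ≤ n →
      |total PlanarConn n (fun G => val q G)| ≤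
        (θ + K * Real.exp (-(κ * n))) * total PlanarConn n (fun G => |val q G|)) :=
  signed_law planar_class q hq (planar_WW q hq)

end Pool.Agent.Results.MP_0d034c_co.SignedSumLaw
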