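import Pool.Agent.Run7.h604.ZH.Law
import Pool.Agent.Run7.h604.ZH.Psm

/-! For a fixed real `q > 1` the chromatic polynomial is positive at `q` on all connected planar
graphs, or it vanishes at `q` on almost all of them, or it never vanishes at `q` and is positive on
asymptotically one half of them. -/

set_option autoImplicit false

namespace Pool.Agent.Results.MP_0d034c_co.ZeroHalfOneLaw

open Pool.Agent.Run7.h604.ZH

theorem result (q : ℝ) (hq : 1 < q) :
    (∀ (V : Type) (G : SimpleGraph V), PlanarConn V G → PosAt q G) ∨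
    (∃ K κ : ℝ, 0 < κ ∧ ∀ n : ℕ, 1 ≤ n →
      1 - K * Real.exp (-(κ * n)) ≤ share PlanarConn n (fun G => ZeroAt q G)) ∨
    ((∀ (V : Type) (G : SimpleGraph V), PlanarConn V G → ¬ ZeroAt q G) ∧
      ∃ K κ : ℝ, 0 < κ ∧ ∀ n : ℕ, 1 ≤ n →
        |share PlanarConn n (fun G => PosAt q G) - 1 / 2| ≤ K * Real.exp (-(κ * n))) :=
  law planar_class q hq

end Pool.Agent.Results.MP_0d034c_co.ZeroHalfOneLaw
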